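import Mathlib
import Pool.Graph.R_pool_sql_team_seeded_3997aac3.Q60.D3.NF

/-!
# The standard symplectic form is a Hodge class of codimension one (project K3, module OM)
-/

set_option autoImplicit false

namespace Pool.Agent.H6.K3

open Matrix Module Pool.Agent.H204R3.CM Pool.Agent.H204R3.SP Pool.Agent.W437.HC
  Pool.Agent.W437.HD

/-- the bilinear form on the homology -/
noncomputable def omQ {H : Type} [AddCommGroup H] [Module ℚ H] {g : ℕ}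
    (e : H ≃ₗ[ℚ] (Fin g ⊕ Fin g → ℚ)) : H →ₗ[ℚ] H →ₗ[ℚ] ℚ :=
  LinearMap.mk₂ ℚ (fun u v => e u ⬝ᵥ (Om g ℚ *ᵥ e v))
    (fun u u' v => by rw [map_add, add_dotProduct])
    (fun a u v => by rw [map_smul, smul_dotProduct])
    (fun u v v' => by rw [map_add, mulVec_add, dotProduct_add])
    (fun a u v => by rw [map_smul, mulVec_smul, dotProduct_smul])

theorem omQ_apply {H : Type} [AddCommGroup H] [Module ℚ H] {g : ℕ}
    (e : H ≃ₗ[ℚ] (Fin g ⊕ Fin g → ℚ)) (u v : H) :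
    omQ e u v = e u ⬝ᵥ (Om g ℚ *ᵥ e v) := rfl

theorem Om_self {g : ℕ} {K : Type} [Field K] [CharZero K] (x : Fin g ⊕ Fin g → K) :
    x ⬝ᵥ (Om g K *ᵥ x) = 0 := by
  have h1 : x ⬝ᵥ (Om g K *ᵥ x) = -(x ⬝ᵥ (Om g K *ᵥ x)) := by
    conv_lhs => rw [dotProduct_mulVec, ← mulVec_transpose, Om_transpose, neg_mulVec,
      neg_dotProduct, dotProduct_comm]
  have h2 : (2 : K) * (x ⬝ᵥ (Om g K *ᵥ x)) = 0 := by linear_combination h1
  exact (mul_eq_zero.1 h2).resolve_left two_ne_zero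

/-- the real bilinear form on the tangent space -/
noncomputable def omR {T : Type} [AddCommGroup T] [Module ℂ T] {g : ℕ}
    (Z : Matrix (Fin g) (Fin g) ℂ) (C : T ≃ₗ[ℂ] (Fin g → ℂ)) : T →ₗ[ℝ] T →ₗ[ℝ] ℝ :=
  LinearMap.mk₂ ℝ (fun u v => invR Z (C u) ⬝ᵥ (Om g ℝ *ᵥ invR Z (C v)))
    (fun u u' v => by rw [map_add, map_add, add_dotProduct])
    (fun a u v => by
      have h : C (a • u) = a • C u := map_smul (C.restrictScalars ℝ) a u
      rw [h, map_smul, smul_dotProduct])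
    (fun u v v' => by rw [map_add, map_add, mulVec_add, dotProduct_add])
    (fun a u v => by
      have h : C (a • v) = a • C v := map_smul (C.restrictScalars ℝ) a v
      rw [h, map_smul, mulVec_smul, dotProduct_smul])

theorem omR_apply {T : Type} [AddCommGroup T] [Module ℂ T] {g : ℕ}
    (Z : Matrix (Fin g) (Fin g) ℂ) (C : T ≃ₗ[ℂ] (Fin g → ℂ)) (u v : T) :
    omR Z C u v = invR Z (C u) ⬝ᵥ (Om g ℝ *ᵥ invR Z (C v)) := rfl

theorem om_rot {g : ℕ} {J : Matrix (Fin g ⊕ Fin g) (Fin g ⊕ Fin g) ℝ} (hJ : J * J = -1)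
    (hJM : Jᵀ * Om g ℝ + Om g ℝ * J = 0) {a b : ℝ} (hn : a ^ 2 + b ^ 2 = 1)
    (x y : Fin g ⊕ Fin g → ℝ) :
    (a • x + b • (J *ᵥ x)) ⬝ᵥ (Om g ℝ *ᵥ (a • y + b • (J *ᵥ y))) = x ⬝ᵥ (Om g ℝ *ᵥ y) := by
  have h4 : x ⬝ᵥ (Om g ℝ *ᵥ (J *ᵥ y)) = -((J *ᵥ x) ⬝ᵥ (Om g ℝ *ᵥ y)) := by
    have h5 : (J *ᵥ x) ⬝ᵥ (Om g ℝ *ᵥ y) = x ⬝ᵥ ((Jᵀ * Om g ℝ) *ᵥ y) := by
      rw [← mulVec_mulVec, dotProduct_mulVec x, vecMul_transpose]
    rw [h5, eq_neg_of_add_eq_zero_left hJM, neg_mulVec, dotProduct_neg, neg_neg, mulVec_mulVec]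
  have h6 : (J *ᵥ x) ⬝ᵥ (Om g ℝ *ᵥ (J *ᵥ y)) = x ⬝ᵥ (Om g ℝ *ᵥ y) := by
    have h5 : (J *ᵥ x) ⬝ᵥ (Om g ℝ *ᵥ (J *ᵥ y)) = x ⬝ᵥ ((Jᵀ * Om g ℝ) *ᵥ (J *ᵥ y)) := by
      rw [← mulVec_mulVec, dotProduct_mulVec x, vecMul_transpose]
    rw [h5, eq_neg_of_add_eq_zero_left hJM, neg_mulVec, mulVec_mulVec, mul_assoc, hJ,
      mul_neg_one, neg_mulVec, neg_neg]
  simp only [mulVec_add, mulVec_smul, dotProduct_add, add_dotProduct, smul_dotProduct,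
    dotProduct_smul, smul_eq_mul, h4, h6]
  linear_combination (x ⬝ᵥ (Om g ℝ *ᵥ y)) * hn

/-- The symplectic form of a normal form is a nondegenerate Hodge class. -/
theorem om_core {H T : Type} [AddCommGroup H] [Module ℚ H] [AddCommGroup T] [Module ℂ T]
    (per : H →+ T) {g : ℕ} {Z : Matrix (Fin g) (Fin g) ℂ} (hZ : Zᵀ = Z) (hpos : (imM Z).PosDef)
    (e : H ≃ₗ[ℚ] (Fin g ⊕ Fin g → ℚ)) (C : T ≃ₗ[ℂ] (Fin g → ℂ))
    (hC : ∀ w, C (per w) = perOne Z (e w)) :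
    ∃ ω : H [⋀^Fin 2]→ₗ[ℚ] ℚ, IsHodge per ω ∧
      (∀ x y, ω ![x, y] = e x ⬝ᵥ (Om g ℚ *ᵥ e y)) ∧ ∀ v, (∀ w, ω ![v, w] = 0) → v = 0 := by
  have hY : IsUnit (imM Z).det := hpos.isUnit.map Matrix.detMonoidHom
  let ω : H [⋀^Fin 2]→ₗ[ℚ] ℚ :=
    { bil2 (omQ e) with
      map_eq_zero_of_eq' := by
        intro v i j hv hij
        have h : v 0 = v 1 := by
          fin_cases i <;> fin_cases j <;> simp_all
        change omQ e (v 0) (v 1) = 0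
        rw [h, omQ_apply]
        exact Om_self _ }
  have hω : ∀ v, ω v = e (v 0) ⬝ᵥ (Om g ℚ *ᵥ e (v 1)) := fun v => rfl
  refine ⟨ω, ⟨bil2 (omR Z C), ?_, ?_⟩, fun x y => rfl, ?_⟩
  · intro v
    rw [bil2_apply, omR_apply, hω, hC, hC, perOne_eq, perOne_eq, invR_perR hY, invR_perR hY]
    have h1 : (fun i => ((e (v 0) i : ℚ) : ℝ)) ⬝ᵥ (Om g ℝ *ᵥ fun i => ((e (v 1) i : ℚ) : ℝ)) =
        ((e (v 0) ⬝ᵥ (Om g ℚ *ᵥ e (v 1)) : ℚ) : ℝ) := by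
      rw [← Om_map (g := g) ℝ]
      simp [dotProduct, mulVec]
    exact h1
  · intro z hz u
    rw [bil2_apply, bil2_apply, omR_apply, omR_apply, map_smul C z (u 0), map_smul C z (u 1),
      invR_rotate hY, invR_rotate hY]
    have hn : z.re ^ 2 + z.im ^ 2 = 1 := by
      have h := Complex.sq_norm z
      rw [hz, Complex.normSq_apply] at h
      nlinarith [h]
    exact om_rot (JR_sq hY) (JR_sp hZ) hn _ _
  · intro v hv
    have h1 : Om g ℚ *ᵥ e v = 0 := by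
      have h2 : ∀ w, w ⬝ᵥ (Om g ℚ *ᵥ e v) = 0 := by
        intro w
        have h3 := hv (e.symm w)
        rw [hω] at h3
        change e v ⬝ᵥ (Om g ℚ *ᵥ e (e.symm w)) = 0 at h3
        rw [LinearEquiv.apply_symm_apply, dotProduct_mulVec, ← mulVec_transpose, Om_transpose,
          neg_mulVec, neg_dotProduct, neg_eq_zero, dotProduct_comm] at h3
        exact h3
      exact dotProduct_eq_zero _ (fun w => by rw [dotProduct_comm]; exact h2 w)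
    have h2 : e v = 0 := by
      have h3 : Om g ℚ *ᵥ (Om g ℚ *ᵥ e v) = -(e v) := by
        rw [mulVec_mulVec, Om_sq, neg_mulVec, one_mulVec]
      rw [h1, mulVec_zero] at h3
      exact (neg_eq_zero.1 h3.symm)
    exact (LinearEquiv.map_eq_zero_iff e).1 h2

end Pool.Agent.H6.K3
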