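import Mathlib
import Pool.Agent.H6.K3.OmCore
import Pool.Agent.H47.K3.Stm

/-!
# Project K3, module OM
-/

set_option autoImplicit false

namespace Pool.Agent.H6.K3

open Pool.Agent.H47.K3 Pool.Agent.H13.N

theorem om : S_OM := by
  intro A
  exact om_core A.per (nZ_symm A) (nZ_pos A) (nE A) (nC A) (nC_per A)

end Pool.Agent.H6.K3
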